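import Pool.Agent.helper52.T1.SpecF
import Pool.Agent.helper95.IR.GEO
import Pool.Agent.helper62.RS.GLC

set_option autoImplicit false

open scoped MatrixGroups ContDiff Topology UpperHalfPlane ComplexConjugate
open UpperHalfPlane MeasureTheory Filter Set

namespace Pool.Agent.T1

open Pool.Agent.RS Pool.Agent.MS Pool.Agent.HV

theorem FLA_mul (A B : SL(2, ℝ)) (i j : Fin 2) : (A * B).1 i j = A.1 i 0 * B.1 0 j + A.1 i 1 * B.1 1 j := by
  rw [Matrix.SpecialLinearGroup.coe_mul, Matrix.mul_apply, Fin.sum_univ_two]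

theorem FLA_entries (b : SL(2, ℝ)) (t o s : ℝ) :
    (aM t * b * lM (-o) * aM (-s)).1 0 0 = Real.exp ((t - s) / 2) * (b.1 0 0 - o * b.1 0 1) ∧
    (aM t * b * lM (-o) * aM (-s)).1 0 1 = Real.exp ((t + s) / 2) * b.1 0 1 ∧
    (aM t * b * lM (-o) * aM (-s)).1 1 0 = Real.exp (-((t + s) / 2)) * (b.1 1 0 - o * b.1 1 1) ∧
    (aM t * b * lM (-o) * aM (-s)).1 1 1 = Real.exp (-((t - s) / 2)) * b.1 1 1 := by
  have e1 : Real.exp ((t - s) / 2) = Real.exp (t / 2) * Real.exp (-s / 2) := by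
    rw [← Real.exp_add]; ring_nf
  have e2 : Real.exp ((t + s) / 2) = Real.exp (t / 2) * Real.exp (-(-s / 2)) := by
    rw [← Real.exp_add]; ring_nf
  have e3 : Real.exp (-((t + s) / 2)) = Real.exp (-(t / 2)) * Real.exp (-s / 2) := by
    rw [← Real.exp_add]; ring_nf
  have e4 : Real.exp (-((t - s) / 2)) = Real.exp (-(t / 2)) * Real.exp (-(-s / 2)) := by
    rw [← Real.exp_add]; ring_nf
  have h00 : ∀ x : ℝ, (aM x).1 0 0 = Real.exp (x / 2) := fun x => rfl
  have h01 : ∀ x : ℝ, (aM x).1 0 1 = 0 := fun x => rfl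
  have h10 : ∀ x : ℝ, (aM x).1 1 0 = 0 := fun x => rfl
  have h11 : ∀ x : ℝ, (aM x).1 1 1 = Real.exp (-(x / 2)) := fun x => rfl
  have l00 : ∀ x : ℝ, (lM x).1 0 0 = 1 := fun x => rfl
  have l01 : ∀ x : ℝ, (lM x).1 0 1 = 0 := fun x => rfl
  have l10 : ∀ x : ℝ, (lM x).1 1 0 = x := fun x => rfl
  have l11 : ∀ x : ℝ, (lM x).1 1 1 = 1 := fun x => rfl
  rw [e1, e2, e3, e4]
  refine ⟨?_, ?_, ?_, ?_⟩
  · simp only [FLA_mul, h00, h01, h10, h11, l00, l01, l10, l11]
    ring
  · simp only [FLA_mul, h00, h01, h10, h11, l00, l01, l10, l11]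
    ring
  · simp only [FLA_mul, h00, h01, h10, h11, l00, l01, l10, l11]
    ring
  · simp only [FLA_mul, h00, h01, h10, h11, l00, l01, l10, l11]
    ring

theorem FLA_exp (t : ℝ) (h : t ≤ 61 / 100) : Real.exp t ≤ 21 / 10 := by
  have h1 : Real.exp (305 / 1000) ≤ 1 / (1 - 305 / 1000) :=
    Real.exp_bound_div_one_sub_of_interval (by norm_num) (by norm_num)
  have h2 : Real.exp t ≤ Real.exp (305 / 1000) * Real.exp (305 / 1000) := by
    rw [← Real.exp_add]
    exact Real.exp_le_exp.mpr (by linarith)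
  have h3 : Real.exp (305 / 1000) ≤ 144 / 100 := h1.trans (by norm_num)
  have h4 := Real.exp_pos (305 / 1000 : ℝ)
  nlinarith

/-- the entries of the box -/
theorem FLA_box (a v : ℝ) (b : SL(2, ℝ)) (t o s : ℝ) (ha : 0 < a) (ha1 : a ≤ 1 / 8000) (hv : 0 < v) (hb : bq (16 * a) (16 * a) (16 * a * v) b)
    (ho : |o| ≤ a * v / 25) (hv1 : v ≤ 1) (hts : |t - s| ≤ a) (hs : |s| ≤ 605 / 1000) :
    bq (40 * a) (40 * a) (40 * a * v) (aM t * b * lM (-o) * aM (-s)) := by
  obtain ⟨b1, b2, b3, b4⟩ := hb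
  obtain ⟨f1, f2, f3, f4⟩ := FLA_entries b t o s
  have hts' := abs_le.mp hts
  have hs' := abs_le.mp hs
  have g1 : |Real.exp ((t - s) / 2) - 1| ≤ a := by
    have h1 : |(t - s) / 2| ≤ a / 2 := by
      rw [abs_div, abs_two]
      linarith
    have h2 := Real.abs_exp_sub_one_le (x := (t - s) / 2) (by linarith)
    linarith
  have g2 : |Real.exp (-((t - s) / 2)) - 1| ≤ a := by
    have h1 : |-((t - s) / 2)| ≤ a / 2 := by
      rw [abs_neg, abs_div, abs_two]
      linarith
    have h2 := Real.abs_exp_sub_one_le (x := -((t - s) / 2)) (by linarith)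
    linarith
  have g3 : Real.exp ((t + s) / 2) ≤ 21 / 10 := FLA_exp _ (by linarith)
  have g4 : Real.exp (-((t + s) / 2)) ≤ 21 / 10 := FLA_exp _ (by linarith)
  have p3 := Real.exp_pos ((t + s) / 2)
  have p4 := Real.exp_pos (-((t + s) / 2))
  have hov : |o| ≤ a / 25 := ho.trans (by
    have : a * v ≤ a * 1 := mul_le_mul_of_nonneg_left hv1 ha.le
    linarith)
  have hb01 := abs_le.mp b3
  have hbd := abs_le.mp b2
  have hob : |o * b.1 0 1| ≤ a / 25 * (16 * a) := by
    rw [abs_mul]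
    exact mul_le_mul hov b3 (abs_nonneg _) (by positivity)
  have hd11 : |b.1 1 1| ≤ 11 / 10 := by
    rw [abs_le]
    constructor <;> linarith
  have hod : |o * b.1 1 1| ≤ a * v / 25 * (11 / 10) := by
    rw [abs_mul]
    exact mul_le_mul ho hd11 (abs_nonneg _) (by positivity)
  have hx1 : |b.1 0 0 - o * b.1 0 1 - 1| ≤ 17 * a := by
    have h1 : b.1 0 0 - o * b.1 0 1 - 1 = (b.1 0 0 - 1) - o * b.1 0 1 := by ring
    rw [h1]
    refine (abs_sub _ _).trans ?_
    nlinarith
  have hx2 : |b.1 1 0 - o * b.1 1 1| ≤ 17 * a * v := by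
    refine (abs_sub _ _).trans ?_
    have := mul_pos ha hv
    nlinarith
  refine ⟨?_, ?_, ?_, ?_⟩
  · rw [f1]
    have h1 : Real.exp ((t - s) / 2) * (b.1 0 0 - o * b.1 0 1) - 1 =
        (Real.exp ((t - s) / 2) - 1) * (b.1 0 0 - o * b.1 0 1 - 1) + (b.1 0 0 - o * b.1 0 1 - 1) + (Real.exp ((t - s) / 2) - 1) := by ring
    rw [h1]
    have h2 : |(Real.exp ((t - s) / 2) - 1) * (b.1 0 0 - o * b.1 0 1 - 1)| ≤ a * (17 * a) := by
      rw [abs_mul]
      exact mul_le_mul g1 hx1 (abs_nonneg _) ha.le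
    have h3 := abs_add_three ((Real.exp ((t - s) / 2) - 1) * (b.1 0 0 - o * b.1 0 1 - 1)) (b.1 0 0 - o * b.1 0 1 - 1) (Real.exp ((t - s) / 2) - 1)
    nlinarith
  · rw [f4]
    have h1 : Real.exp (-((t - s) / 2)) * b.1 1 1 - 1 =
        (Real.exp (-((t - s) / 2)) - 1) * (b.1 1 1 - 1) + (b.1 1 1 - 1) + (Real.exp (-((t - s) / 2)) - 1) := by ring
    rw [h1]
    have h2 : |(Real.exp (-((t - s) / 2)) - 1) * (b.1 1 1 - 1)| ≤ a * (16 * a) := by
      rw [abs_mul]
      exact mul_le_mul g2 b2 (abs_nonneg _) ha.le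
    have h3 := abs_add_three ((Real.exp (-((t - s) / 2)) - 1) * (b.1 1 1 - 1)) (b.1 1 1 - 1) (Real.exp (-((t - s) / 2)) - 1)
    nlinarith
  · rw [f2, abs_mul, abs_of_pos p3]
    have := mul_le_mul g3 b3 (abs_nonneg _) (by norm_num : (0 : ℝ) ≤ 21 / 10)
    linarith
  · rw [f3, abs_mul, abs_of_pos p4]
    have h1 := mul_le_mul g4 hx2 (abs_nonneg _) (by norm_num : (0 : ℝ) ≤ 21 / 10)
    have := mul_pos ha hv
    linarith

theorem FLA_zero {f : ℝ → SL(2, ℝ)} (h : ∀ s t, f (s + t) = f s * f t) : f 0 = 1 := by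
  have h1 := h 0 0
  rw [add_zero] at h1
  exact (mul_eq_left.mp h1.symm)

theorem FLA_neg {f : ℝ → SL(2, ℝ)} (h : ∀ s t, f (s + t) = f s * f t) (x : ℝ) : f x * f (-x) = 1 := by
  rw [← h, add_neg_cancel, FLA_zero h]

theorem FLA_neg' {f : ℝ → SL(2, ℝ)} (h : ∀ s t, f (s + t) = f s * f t) (x : ℝ) : f (-x) * f x = 1 := by
  rw [← h, neg_add_cancel, FLA_zero h]

theorem FLA_shift (haM : ∀ s t, aM (s + t) = aM s * aM t) (hlM : ∀ s t, lM (s + t) = lM s * lM t)
    (hla : ∀ u t, lM u * aM t = aM t * lM (Real.exp t * u)) (w X τ o s : ℝ) (h : 0 < 1 + w * X) :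
    lM w * nM X * aM τ * lM o * aM s = nM (X / (1 + w * X)) * aM s * aM (τ + (-2 * Real.log (1 + w * X))) *
      lM (Real.exp s * (Real.exp τ * (w / (1 + w * X)) + o)) := by
  have e01 : (lM w * nM X).1 0 1 = X := by
    rw [FLA_mul]
    show 1 * X + 0 * 1 = X
    ring
  have e11 : (lM w * nM X).1 1 1 = 1 + w * X := by
    rw [FLA_mul]
    show w * X + 1 * 1 = 1 + w * X
    ring
  have e10 : (lM w * nM X).1 1 0 = w := by
    rw [FLA_mul]
    show w * 1 + 1 * 0 = w
    ring
  have hdec := IR.GEO_dec (lM w * nM X) (by rw [e11]; exact h)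
  rw [e01, e11, e10] at hdec
  set τ2 := -2 * Real.log (1 + w * X) with hτ2
  set o2 := w / (1 + w * X) with ho2
  set X2 := X / (1 + w * X) with hX2
  have hcomm : aM τ2 * aM τ * aM s = aM s * aM (τ + τ2) := by
    rw [← haM, ← haM, ← haM]
    congr 1
    ring
  calc lM w * nM X * aM τ * lM o * aM s = nM X2 * (aM τ2 * lM o2) * aM τ * lM o * aM s := by rw [hdec]
    _ = nM X2 * aM τ2 * (lM o2 * aM τ) * lM o * aM s := by simp only [mul_assoc]
    _ = nM X2 * aM τ2 * (aM τ * lM (Real.exp τ * o2)) * lM o * aM s := by rw [hla]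
    _ = nM X2 * (aM τ2 * aM τ) * ((lM (Real.exp τ * o2) * lM o) * aM s) := by simp only [mul_assoc]
    _ = nM X2 * (aM τ2 * aM τ) * (aM s * lM (Real.exp s * (Real.exp τ * o2 + o))) := by rw [← hlM, hla]
    _ = nM X2 * (aM τ2 * aM τ * aM s) * lM (Real.exp s * (Real.exp τ * o2 + o)) := by simp only [mul_assoc]
    _ = nM X2 * (aM s * aM (τ + τ2)) * lM (Real.exp s * (Real.exp τ * o2 + o)) := by rw [hcomm]
    _ = _ := by simp only [mul_assoc]

/-- the small numbers -/
theorem FLA_num (w X τ o s N l0 a N0 : ℝ) (ha : 0 < a) (ha1 : a ≤ 1 / 8000) (hN0 : 1 / a ≤ N0) (hN : N0 ^ 2 ≤ N)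
    (hw : 0 ≤ w) (hw1 : w ≤ l0) (hl0 : l0 ≤ 1 / (100 * N)) (hX : |X| ≤ 31 / 100) (hτ : |τ| ≤ 3 / 5) (ho : |o| ≤ l0) (hs : s ≤ 0) :
    0 < 1 + w * X ∧ |X / (1 + w * X)| ≤ 32 / 100 ∧ |X / (1 + w * X) - X| * N ≤ 1 ∧ |τ + (-2 * Real.log (1 + w * X))| ≤ 605 / 1000 ∧
      |Real.exp s * (Real.exp τ * (w / (1 + w * X)) + o)| ≤ a * (1 / N0) / 25 := by
  have hN0' : 8000 ≤ N0 := by
    refine le_trans ?_ hN0
    rw [le_div_iff₀ ha]
    linarith
  have hN1 : 64000000 ≤ N := by nlinarith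
  have hNp : 0 < N := by linarith
  have hl1 : l0 * N ≤ 1 / 100 := by
    have h1 := mul_le_mul_of_nonneg_right hl0 hNp.le
    have h2 : 1 / (100 * N) * N = 1 / 100 := by field_simp
    linarith
  have hl00 : 0 ≤ l0 := hw.trans hw1
  have hlsmall : l0 ≤ 1 / 1000000 := by
    by_contra hcon
    push Not at hcon
    nlinarith
  have hX' := abs_le.mp hX
  have hτ' := abs_le.mp hτ
  have ho' := abs_le.mp ho
  have hwX1 : |w * X| ≤ l0 * (31 / 100) := by
    rw [abs_mul, abs_of_nonneg hw]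
    exact mul_le_mul hw1 hX (abs_nonneg _) hl00
  have hwX2 := abs_le.mp hwX1
  have hD1 : 999 / 1000 ≤ 1 + w * X := by linarith
  have hD2 : 1 + w * X ≤ 1001 / 1000 := by linarith
  have hDp : 0 < 1 + w * X := by linarith
  refine ⟨hDp, ?_, ?_, ?_, ?_⟩
  · rw [abs_div, abs_of_pos hDp, div_le_iff₀ hDp]
    linarith
  · have h1 : X / (1 + w * X) - X = -(X * (w * X)) / (1 + w * X) := by
      rw [eq_div_iff hDp.ne', sub_mul, div_mul_cancel₀ _ hDp.ne']
      ring
    rw [h1, abs_div, abs_neg, abs_mul, abs_of_pos hDp, div_mul_eq_mul_div, div_le_one hDp]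
    have h2 : |X| * |w * X| ≤ 31 / 100 * (l0 * (31 / 100)) := mul_le_mul hX hwX1 (abs_nonneg _) (by norm_num)
    have h3 := mul_le_mul_of_nonneg_right h2 hNp.le
    nlinarith
  · have h1 : Real.log (1 + w * X) ≤ w * X := by
      have := Real.log_le_sub_one_of_pos hDp
      linarith
    have h2 : -(2 * |w * X|) ≤ Real.log (1 + w * X) := by
      have h3 := Real.one_sub_inv_le_log_of_pos hDp
      have h4 : (1 + w * X)⁻¹ ≤ 1 + 2 * |w * X| := by
        rw [inv_le_iff_one_le_mul₀ hDp]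
        have h5 := neg_abs_le (w * X)
        have h6 := abs_nonneg (w * X)
        nlinarith
      linarith
    have h7 : |w * X| ≤ 1 / 1000 := by linarith
    have h8 := le_abs_self (w * X)
    rw [abs_le]
    constructor <;> linarith
  · have hes : Real.exp s ≤ 1 := Real.exp_le_one_iff.mpr hs
    have hes0 := Real.exp_pos s
    have heτ : Real.exp τ ≤ 21 / 10 := FLA_exp _ (by linarith)
    have heτ0 := Real.exp_pos τ
    have hq : |w / (1 + w * X)| ≤ 1002 / 1000 * l0 := by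
      rw [abs_div, abs_of_nonneg hw, abs_of_pos hDp, div_le_iff₀ hDp]
      nlinarith
    have h1 : |Real.exp τ * (w / (1 + w * X)) + o| ≤ 4 * l0 := by
      refine (abs_add_le _ _).trans ?_
      rw [abs_mul, abs_of_pos heτ0]
      have h2 := mul_le_mul heτ hq (abs_nonneg _) (by norm_num : (0 : ℝ) ≤ 21 / 10)
      linarith
    rw [abs_mul, abs_of_pos hes0]
    have h3 : Real.exp s * |Real.exp τ * (w / (1 + w * X)) + o| ≤ 1 * (4 * l0) :=
      mul_le_mul hes h1 (abs_nonneg _) (by norm_num)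
    refine h3.trans ?_
    have hN0p : 0 < N0 := by linarith
    have h4 : 1 ≤ a * N0 := by
      rw [div_le_iff₀ ha] at hN0
      linarith
    have h5 : 4 * l0 * N0 ≤ a / 25 := by
      have h6 : l0 * N0 ^ 2 ≤ 1 / 100 := le_trans (mul_le_mul_of_nonneg_left hN hl00) hl1
      have h7 : l0 * N0 * N0 * a ≤ 1 / 100 * a := by
        have := mul_le_mul_of_nonneg_right h6 ha.le
        nlinarith
      have h8 : l0 * N0 * 1 ≤ l0 * N0 * (a * N0) := mul_le_mul_of_nonneg_left h4 (by positivity)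
      nlinarith
    have h9 : a * (1 / N0) / 25 = a / 25 / N0 := by ring
    rw [h9, le_div_iff₀ hN0p]
    linarith

theorem FLA_proof : FLA_stmt := by
  classical
  obtain ⟨-, -, -, -, -, -, -, -, -, -, haM, hnM, hlM, -, -, -, -, -, hla, -⟩ := RS.GLC
  intro a ha ha1
  have hC1 : 1 ≤ 2 * (2 / a + 3) := by
    have : 0 < 2 / a := by positivity
    linarith
  refine ⟨2 * (2 / a + 3), hC1, ?_⟩
  intro Γ N0 A hN0
  set I : ℤ := ⌈1 / a⌉ with hI
  have hI1 : 1 / a ≤ I := Int.le_ceil _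
  have hI2 : (I : ℝ) < 1 / a + 1 := Int.ceil_lt_add_one _
  have hI0 : 0 ≤ I := by
    have : (0 : ℝ) ≤ I := le_trans (by positivity) hI1
    exact_mod_cast this
  set f1 : SL(2, ℝ) × ℤ → SL(2, ℝ) := fun p => p.1 * aM (-((p.2 : ℝ) * a)) with hf1
  set B0 : Finset (SL(2, ℝ) × ℤ) := A ×ˢ Finset.Icc (-I) I with hB0
  refine ⟨B0.image f1 ∪ (B0.image f1).image (fun y => (-1 : SL(2, ℝ)) * y), ?_, ?_, ?_⟩
  · have h1 : (B0.image f1 ∪ (B0.image f1).image (fun y => (-1 : SL(2, ℝ)) * y)).card ≤ B0.card + B0.card := by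
      refine (Finset.card_union_le _ _).trans (Nat.add_le_add Finset.card_image_le ?_)
      exact Finset.card_image_le.trans Finset.card_image_le
    have h2 : (B0.card : ℝ) ≤ A.card * (2 / a + 3) := by
      rw [hB0, Finset.card_product, Int.card_Icc, Nat.cast_mul]
      refine mul_le_mul_of_nonneg_left ?_ (Nat.cast_nonneg _)
      have h3 : (0 : ℤ) ≤ I + 1 - -I := by linarith
      have h4 : (((I + 1 - -I).toNat : ℕ) : ℝ) = ((I + 1 - -I : ℤ) : ℝ) := by
        exact_mod_cast congrArg (fun z : ℤ => (z : ℝ)) (Int.toNat_of_nonneg h3)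
      rw [h4]
      push_cast
      have : 2 / a = 2 * (1 / a) := by ring
      linarith
    have h5 : ((B0.image f1 ∪ (B0.image f1).image (fun y => (-1 : SL(2, ℝ)) * y)).card : ℝ) ≤ (B0.card : ℝ) + B0.card := by
      exact_mod_cast h1
    linarith
  · intro g hg
    obtain ⟨y, hy, γ, hb⟩ := hg
    have hN0p : (0 : ℝ) < N0 := lt_of_lt_of_le (by positivity) hN0
    refine ⟨y, ?_, γ, ?_⟩
    · refine Finset.mem_union_left _ (Finset.mem_image.mpr ⟨(y, 0), ?_, ?_⟩)
      · rw [hB0, Finset.mem_product, Finset.mem_Icc]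
        exact ⟨hy, by simpa using hI0, hI0⟩
      · show y * aM (-(((0 : ℤ) : ℝ) * a)) = y
        rw [Int.cast_zero, zero_mul, neg_zero, FLA_zero haM, mul_one]
    · obtain ⟨b1, b2, b3, b4⟩ := hb
      have hv : (0 : ℝ) < 1 / N0 := by positivity
      refine ⟨b1.trans (by linarith), b2.trans (by linarith), b3.trans (by linarith), b4.trans ?_⟩
      exact mul_le_mul_of_nonneg_right (by linarith) hv.le
  · intro M q g j l l0 hM hl hll0 hl0 hJ
    obtain ⟨hj, u, hu, x, τ, o, e, he, hx, hτ, ho, hW⟩ := hJ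
    have hN0' : (8000 : ℝ) ≤ N0 := by
      refine le_trans ?_ hN0
      rw [le_div_iff₀ ha]
      linarith
    have hN0p : (0 : ℝ) < N0 := by linarith
    have hN0n : 0 < N0 := by exact_mod_cast hN0p
    set N : ℝ := (N0 : ℝ) ^ (M + 1) with hNdef
    have hN2 : (N0 : ℝ) ^ 2 ≤ N := pow_le_pow_right₀ (by linarith) (by omega)
    have hN3 : (64000000 : ℝ) ≤ N := by nlinarith
    have hNp : 0 < N := by linarith
    set X : ℝ := (j : ℝ) * (1 / N) + x with hXdef
    have hx1 : |x| * N ≤ 4 := by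
      have h1 := mul_le_mul_of_nonneg_right hx hNp.le
      have h2 : 4 * (1 / N) * N = 4 := by field_simp
      linarith
    have hxs : |x| ≤ 1 / 100 := by
      by_contra hcon
      push Not at hcon
      nlinarith
    have hX : |X| ≤ 31 / 100 := by
      refine (abs_add_le _ _).trans ?_
      linarith
    set w : ℝ := l * u with hw
    have hw0 : 0 ≤ w := mul_nonneg hl hu.1
    have hw1 : w ≤ l0 := by
      have : l * u ≤ l * 1 := mul_le_mul_of_nonneg_left hu.2 hl
      linarith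
    obtain ⟨hD, hX1, hX2, -, -⟩ := FLA_num w X τ o 0 N l0 a N0 ha ha1 hN0 hN2 hw0 hw1 hl0 hX hτ ho le_rfl
    set X' : ℝ := X / (1 + w * X) with hX'
    -- the new frequency
    set s0 : ℕ := N0 ^ (M + 1) / 2 with hs0
    have hs1 : (s0 : ℝ) ≤ N / 2 := by
      have h1 : 2 * s0 ≤ N0 ^ (M + 1) := by omega
      have h2 : (2 : ℝ) * s0 ≤ (N0 : ℝ) ^ (M + 1) := by exact_mod_cast h1
      linarith
    have hs2 : N / 2 - 1 ≤ s0 := by
      have h1 : N0 ^ (M + 1) ≤ 2 * s0 + 2 := by omega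
      have h2 : (N0 : ℝ) ^ (M + 1) ≤ 2 * s0 + 2 := by exact_mod_cast h1
      linarith
    have hX1' := abs_le.mp hX1
    set Z : ℝ := X' * N + s0 with hZ
    have hZ0 : 0 ≤ Z := by nlinarith
    have hZ1 : Z < N := by nlinarith
    have hj1 : ((⌊Z⌋₊ : ℕ) : ℝ) ≤ Z := Nat.floor_le hZ0
    have hj2 : Z < ((⌊Z⌋₊ : ℕ) : ℝ) + 1 := Nat.lt_floor_add_one Z
    refine ⟨⌊Z⌋₊, ?_, ?_⟩
    · refine Finset.mem_filter.mpr ⟨?_, ?_⟩
      · rw [Finset.mem_range]
        have h1 : ((⌊Z⌋₊ : ℕ) : ℝ) < ((N0 ^ (M + 1) : ℕ) : ℝ) := by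
          push_cast
          exact lt_of_le_of_lt hj1 hZ1
        exact_mod_cast h1
      · intro i hi hq
        have hi0 : i ≠ 0 := by
          intro h0
          rw [h0] at hq
          simp [pre] at hq
        obtain ⟨i1, rfl⟩ := Nat.exists_eq_succ_of_ne_zero hi0
        have hq1 : q i1 = true := by
          have h1 : pre q (i1.succ) = q i1 := by
            unfold pre
            rw [if_neg hi0]
            rfl
          rw [h1] at hq
          exact hq
        have hi1 : i1 < M := by omega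
        have hpow : N = (N0 : ℝ) ^ i1.succ * (N0 : ℝ) ^ (M + 1 - i1.succ) := by
          rw [hNdef, ← pow_add]
          have h1 : i1.succ + (M + 1 - i1.succ) = M + 1 := by omega
          rw [h1]
        have hpp : (0 : ℝ) < (N0 : ℝ) ^ i1.succ := by positivity
        have hxN : (X' + s0 / N) * (N0 : ℝ) ^ (M + 1 - i1.succ) = Z / (N0 : ℝ) ^ i1.succ := by
          rw [eq_div_iff hpp.ne', mul_assoc, mul_comm ((N0 : ℝ) ^ (M + 1 - i1.succ)), ← hpow, hZ, add_mul,
            div_mul_cancel₀ _ hNp.ne']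
        refine ⟨X' + s0 / N, ?_, ?_, ?_⟩
        · rw [hxN, le_div_iff₀ hpp]
          have h1 : ⌊Z⌋₊ / N0 ^ i1.succ * N0 ^ i1.succ ≤ ⌊Z⌋₊ := Nat.div_mul_le_self _ _
          have h2 : ((⌊Z⌋₊ / N0 ^ i1.succ : ℕ) : ℝ) * (N0 : ℝ) ^ i1.succ ≤ ((⌊Z⌋₊ : ℕ) : ℝ) := by exact_mod_cast h1
          linarith
        · rw [hxN, div_lt_iff₀ hpp]
          have h1 : ⌊Z⌋₊ < N0 ^ i1.succ * (⌊Z⌋₊ / N0 ^ i1.succ + 1) := Nat.lt_mul_div_succ _ (by positivity)
          have h1' : ⌊Z⌋₊ + 1 ≤ N0 ^ i1.succ * (⌊Z⌋₊ / N0 ^ i1.succ + 1) := h1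
          have h2 : ((⌊Z⌋₊ : ℕ) : ℝ) + 1 ≤ (N0 : ℝ) ^ i1.succ * (((⌊Z⌋₊ / N0 ^ i1.succ : ℕ) : ℝ) + 1) := by exact_mod_cast h1'
          linarith
        · -- membership
          obtain ⟨y, hy, γ, hb⟩ := hW i1 hi1 hq1
          set s : ℝ := -(((M + 1 - i1.succ : ℕ) : ℝ) * Real.log N0) with hs
          have hsM : ((M + 1 - i1.succ : ℕ) : ℝ) = (M : ℝ) - i1 := by
            rw [show M + 1 - i1.succ = M - i1 by omega, Nat.cast_sub hi1.le]
          have hlog : 0 ≤ Real.log N0 := Real.log_nonneg (by linarith)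
          have hsle : s ≤ 0 := by
            rw [hs]
            have : 0 ≤ ((M + 1 - i1.succ : ℕ) : ℝ) * Real.log N0 := mul_nonneg (Nat.cast_nonneg _) hlog
            linarith
          obtain ⟨-, -, -, hσ, ho'⟩ := FLA_num w X τ o s N l0 a N0 ha ha1 hN0 hN2 hw0 hw1 hl0 hX hτ ho hsle
          set σ : ℝ := τ + (-2 * Real.log (1 + w * X)) with hσd
          set o' : ℝ := Real.exp s * (Real.exp τ * (w / (1 + w * X)) + o) with ho'd
          have haa : aM (-((M : ℝ) * Real.log N0)) * aM ((i1 : ℝ) * Real.log N0) = aM s := by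
            rw [← haM, hs, hsM]
            congr 1
            ring
          have hH : e * g * lM w * nM X * aM τ * lM o * aM (-((M : ℝ) * Real.log N0)) * aM ((i1 : ℝ) * Real.log N0) =
              e * (g * nM X' * aM s) * aM σ * lM o' := by
            have h1 := FLA_shift haM hlM hla w X τ o s hD
            calc e * g * lM w * nM X * aM τ * lM o * aM (-((M : ℝ) * Real.log N0)) * aM ((i1 : ℝ) * Real.log N0)
                = e * g * (lM w * nM X * aM τ * lM o * (aM (-((M : ℝ) * Real.log N0)) * aM ((i1 : ℝ) * Real.log N0))) := by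
                  simp only [mul_assoc]
              _ = e * g * (nM X' * aM s * aM σ * lM o') := by rw [haa, h1]
              _ = _ := by simp only [mul_assoc]
          have hb' : bq (16 * a) (16 * a) (16 * a * (1 / N0)) (y⁻¹ * (γ : SL(2, ℝ)) * (e * (g * nM X' * aM s) * aM σ * lM o')) := by
            rw [← hH]
            exact hb
          -- the new box
          set i2 : ℤ := ⌊σ / a⌋ with hi2
          have hi21 : (i2 : ℝ) * a ≤ σ := by
            have := Int.floor_le (σ / a)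
            rwa [le_div_iff₀ ha] at this
          have hi22 : σ < ((i2 : ℝ) + 1) * a := by
            have := Int.lt_floor_add_one (σ / a)
            rwa [div_lt_iff₀ ha] at this
          have hσ' := abs_le.mp hσ
          have haI : 1 ≤ (I : ℝ) * a := by
            rw [div_le_iff₀ ha] at hI1
            exact hI1
          have hiI1 : i2 ≤ I := by
            by_contra hcon
            push Not at hcon
            have h1 : (I : ℝ) ≤ i2 := by exact_mod_cast hcon.le
            have h2 := mul_le_mul_of_nonneg_right h1 ha.le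
            linarith
          have hiI2 : -I ≤ i2 := by
            by_contra hcon
            push Not at hcon
            have h1 : (i2 : ℝ) + 1 ≤ -I := by
              have : i2 + 1 ≤ -I := hcon
              exact_mod_cast this
            have h2 := mul_le_mul_of_nonneg_right h1 ha.le
            linarith
          have hts : |(i2 : ℝ) * a - σ| ≤ a := by
            rw [abs_le]
            constructor <;> linarith
          have hbox := FLA_box a (1 / N0) _ ((i2 : ℝ) * a) o' σ ha ha1 (by positivity) hb' ho' (by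
            rw [div_le_one hN0p]
            linarith) hts hσ
          have hbq : aM ((i2 : ℝ) * a) * (y⁻¹ * (γ : SL(2, ℝ)) * (e * (g * nM X' * aM s) * aM σ * lM o')) * lM (-o') * aM (-σ) =
              aM ((i2 : ℝ) * a) * (y⁻¹ * (γ : SL(2, ℝ)) * (e * (g * nM X' * aM s))) := by
            calc aM ((i2 : ℝ) * a) * (y⁻¹ * (γ : SL(2, ℝ)) * (e * (g * nM X' * aM s) * aM σ * lM o')) * lM (-o') * aM (-σ)
                = aM ((i2 : ℝ) * a) * (y⁻¹ * (γ : SL(2, ℝ)) * (e * (g * nM X' * aM s))) * (aM σ * (lM o' * lM (-o')) * aM (-σ)) := by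
                  simp only [mul_assoc]
              _ = _ := by rw [FLA_neg hlM, mul_one, FLA_neg haM, mul_one]
          rw [hbq] at hbox
          have hpt : g * nM (-((s0 : ℝ) / N)) * nM (X' + s0 / N) * aM s = g * nM X' * aM s := by
            rw [mul_assoc g, ← hnM]
            congr 3
            ring
          show g * nM (-((s0 : ℝ) / N)) * nM (X' + s0 / N) * aM s ∈ _
          rw [hpt]
          have hmem : (y, i2) ∈ B0 := by
            rw [hB0, Finset.mem_product, Finset.mem_Icc]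
            exact ⟨hy, hiI2, hiI1⟩
          have hmem1 : y * aM (-((i2 : ℝ) * a)) ∈ B0.image f1 := Finset.mem_image.mpr ⟨(y, i2), hmem, rfl⟩
          have hinv : ∀ t : ℝ, (aM (-t))⁻¹ = aM t := by
            intro t
            rw [inv_eq_iff_mul_eq_one]
            exact FLA_neg' haM t
          rcases he with rfl | rfl
          · refine ⟨y * aM (-((i2 : ℝ) * a)), Finset.mem_union_left _ hmem1, γ, ?_⟩
            have h1 : (y * aM (-((i2 : ℝ) * a)))⁻¹ * (γ : SL(2, ℝ)) * (g * nM X' * aM s) =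
                aM ((i2 : ℝ) * a) * (y⁻¹ * (γ : SL(2, ℝ)) * (1 * (g * nM X' * aM s))) := by
              rw [mul_inv_rev, hinv, one_mul]
              simp only [mul_assoc]
            rw [h1]
            exact hbox
          · refine ⟨(-1 : SL(2, ℝ)) * (y * aM (-((i2 : ℝ) * a))), Finset.mem_union_right _ (Finset.mem_image.mpr ⟨_, hmem1, rfl⟩), γ, ?_⟩
            have h1 : ((-1 : SL(2, ℝ)) * (y * aM (-((i2 : ℝ) * a))))⁻¹ * (γ : SL(2, ℝ)) * (g * nM X' * aM s) =
                aM ((i2 : ℝ) * a) * (y⁻¹ * (γ : SL(2, ℝ)) * (-1 * (g * nM X' * aM s))) := by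
              rw [mul_inv_rev, mul_inv_rev, hinv]
              have h2 : ((-1 : SL(2, ℝ)))⁻¹ = -1 := by
                rw [inv_eq_iff_mul_eq_one]
                simp
              rw [h2]
              simp only [mul_neg, neg_mul, one_mul, mul_one, mul_assoc]
            rw [h1]
            exact hbox
    · have h1 : |(j : ℝ) + s0 - ((⌊Z⌋₊ : ℕ) : ℝ)| ≤ 6 := by
        have h2 : Z = (j : ℝ) + s0 + (x * N) + (X' - X) * N := by
          rw [hZ, hXdef]
          field_simp
          ring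
        have h3 : |x * N| ≤ 4 := by
          rw [abs_mul, abs_of_pos hNp]
          exact hx1
        have h4 : |(X' - X) * N| ≤ 1 := by
          rw [abs_mul, abs_of_pos hNp]
          exact hX2
        have h3' := abs_le.mp h3
        have h4' := abs_le.mp h4
        rw [abs_le]
        constructor <;> linarith
      have h5 : |((j + (s0 : ℤ) - ((⌊Z⌋₊ : ℕ) : ℤ) : ℤ) : ℝ)| ≤ ((8 : ℤ) : ℝ) := by
        push_cast
        linarith
      rw [← Int.cast_abs] at h5
      exact_mod_cast h5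

end Pool.Agent.T1
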