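import Pool.Agent.helper46.T1.SpecP

set_option autoImplicit false

open scoped MatrixGroups ContDiff Topology UpperHalfPlane ComplexConjugate
open UpperHalfPlane MeasureTheory Filter Set

namespace Pool.Agent.TP

open Pool.Agent.RS Pool.Agent.MS

section

variable {Ω : Type} [MeasurableSpace Ω] {P : Measure Ω} [IsFiniteMeasure P]

theorem PDD_int {f : Ω → ℝ} (hf : Measurable f) (C : ℝ) (hC : ∀ x, |f x| ≤ C) : Integrable f P :=
  Integrable.of_bound hf.aestronglyMeasurable C (Eventually.of_forall hC)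

theorem PDD_prod {f : ℝ → Ω → ℝ} (hf : Measurable (Function.uncurry f)) (C W : ℝ) (hC : ∀ s x, |f s x| ≤ C) :
    Integrable (Function.uncurry f) ((volume.restrict (Ioc (0 : ℝ) W)).prod P) :=
  Integrable.of_bound hf.aestronglyMeasurable C (Eventually.of_forall fun q => hC q.1 q.2)

theorem PDD_swap {f : ℝ → Ω → ℝ} (hf : Measurable (Function.uncurry f)) (C W : ℝ) (hC : ∀ s x, |f s x| ≤ C)
    (hW : 0 ≤ W) : ∫ x, (∫ s in (0 : ℝ)..W, f s x) ∂P = ∫ s in (0 : ℝ)..W, ∫ x, f s x ∂P := by
  simp only [intervalIntegral.integral_of_le hW]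
  exact (integral_integral_swap (PDD_prod hf C W hC)).symm

theorem PDD_ii {f : ℝ → ℝ} (hf : Measurable f) (C W : ℝ) (hC : ∀ s, |f s| ≤ C) : IntervalIntegrable f volume 0 W := by
  constructor
  · exact Integrable.of_bound hf.aestronglyMeasurable C (Eventually.of_forall hC)
  · exact Integrable.of_bound hf.aestronglyMeasurable C (Eventually.of_forall hC)

/-- some time is at most the average -/
theorem PDD_ex {f : ℝ → Ω → ℝ} (hf : Measurable (Function.uncurry f)) (C W e : ℝ) (hC : ∀ s x, |f s x| ≤ C)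
    (hW : 0 < W) (h : ∫ s in (0 : ℝ)..W, ∫ x, f s x ∂P ≤ W * e) : ∃ u : ℝ, 0 ≤ u ∧ u ≤ W ∧ ∫ x, f u x ∂P ≤ e := by
  have hI : IntegrableOn (fun s => ∫ x, f s x ∂P) (Ioc (0 : ℝ) W) volume :=
    (PDD_prod (P := P) hf C W hC).integral_prod_left
  have h1 : volume (Ioc (0 : ℝ) W) ≠ 0 := by
    rw [Real.volume_Ioc, sub_zero]
    simpa using hW
  have h2 : volume (Ioc (0 : ℝ) W) ≠ ⊤ := by
    rw [Real.volume_Ioc]
    exact ENNReal.ofReal_ne_top
  obtain ⟨u, hu, hle⟩ := exists_le_setAverage h1 h2 hI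
  refine ⟨u, hu.1.le, hu.2, hle.trans ?_⟩
  rw [setAverage_eq, measureReal_def, Real.volume_Ioc, sub_zero, ENNReal.toReal_ofReal hW.le, smul_eq_mul,
    ← intervalIntegral.integral_of_le hW.le]
  rw [inv_mul_le_iff₀ hW]
  exact h

end

theorem PDD_proof (hPDA : PDA_stmt) : PDD_stmt := by
  intro Ω _ P k χ ζ p q W η c m t0 t1 N hP hP1 hk hk01 hW hpq hN hη hc hχm hζm hχ hζ hCH hZE hS1 hS2 hS3 ht0 ht0' hc0 ht1 ht1' hm
  haveI := hP
  -- all the averages are small
  have hz : ∀ t, p ≤ t → t + W ≤ q → ∫ x, ζ (aw k W t x) ∂P ≤ c + η := by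
    intro t h1 h2
    have h3 := (abs_le.mp (hS1 t t0 h1 ht0 h2 ht0')).2
    linarith
  obtain ⟨-, hD2, hD3⟩ := hPDA Ω P k χ ζ p q W (c + η) N hP hk hk01 hW hN hχm hζm hχ hζ hCH hZE hz
  -- measurability
  have hkt : ∀ t : ℝ, Measurable (Function.uncurry fun (s : ℝ) (x : Ω) => k (t + s) x) := fun t =>
    hk.comp (((measurable_const.add measurable_fst)).prodMk measurable_snd)
  have hk1 : ∀ t, Measurable (k t) := fun t => hk.comp (measurable_const.prodMk measurable_id)
  have hk2 : ∀ (t : ℝ) (x : Ω), Measurable fun s : ℝ => k (t + s) x := fun t x =>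
    (hkt t).comp (measurable_id.prodMk measurable_const)
  have hkb : ∀ t x, |k t x| ≤ 1 := fun t x => abs_le.mpr ⟨by linarith [(hk01 t x).1], (hk01 t x).2⟩
  have hkI : ∀ (t : ℝ) (x : Ω), IntervalIntegrable (fun s : ℝ => k (t + s) x) volume 0 W := fun t x =>
    PDD_ii (hk2 t x) 1 W fun s => hkb _ _
  have hAm : ∀ t, Measurable fun x => aw k W t x := by
    intro t
    have h1 : Measurable fun x => ∫ s in (0 : ℝ)..W, k (t + s) x := by
      simp only [intervalIntegral.integral_of_le hW.le]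
      exact (StronglyMeasurable.integral_prod_left' (μ := volume.restrict (Ioc (0 : ℝ) W)) (hkt t).stronglyMeasurable).measurable
    exact h1.div_const W
  have hA0 : ∀ t x, 0 ≤ aw k W t x := fun t x =>
    div_nonneg (intervalIntegral.integral_nonneg hW.le fun s _ => (hk01 _ _).1) hW.le
  have hA1 : ∀ t x, aw k W t x ≤ 1 := by
    intro t x
    have h1 : ∫ s in (0 : ℝ)..W, k (t + s) x ≤ ∫ s in (0 : ℝ)..W, (1 : ℝ) :=
      intervalIntegral.integral_mono_on hW.le (hkI t x) intervalIntegrable_const fun s _ => (hk01 _ _).2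
    rw [intervalIntegral.integral_const, smul_eq_mul, mul_one, sub_zero] at h1
    exact (div_le_one hW).mpr h1
  have hχA : ∀ t, Measurable fun x => χ (aw k W t x) := fun t => hχm.comp (hAm t)
  have hζA : ∀ t, Measurable fun x => ζ (aw k W t x) := fun t => hζm.comp (hAm t)
  have hχI : ∀ t, Integrable (fun x => χ (aw k W t x)) P := fun t =>
    PDD_int (hχA t) 1 fun x => abs_le.mpr ⟨by linarith [(hχ (aw k W t x)).1], (hχ _).2⟩
  have hζI : ∀ t, Integrable (fun x => ζ (aw k W t x)) P := fun t =>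
    PDD_int (hζA t) 1 fun x => abs_le.mpr ⟨by linarith [(hζ (aw k W t x)).1], (hζ _).2⟩
  have hφb : ∀ t s x, |χ (aw k W t x) * (1 - k s x)| ≤ 1 := by
    intro t s x
    have h1 := hχ (aw k W t x)
    have h2 := hk01 s x
    rw [abs_le]
    constructor
    · nlinarith [mul_nonneg h1.1 (sub_nonneg.mpr h2.2)]
    · nlinarith [mul_nonneg h1.1 h2.1]
  have hφI : ∀ t s, Integrable (fun x => χ (aw k W t x) * (1 - k s x)) P := fun t s =>
    PDD_int ((hχA t).mul (measurable_const.sub (hk1 s))) 1 (hφb t s)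
  have hAI : ∀ t, Integrable (fun x => aw k W t x) P := fun t =>
    PDD_int (hAm t) 1 fun x => abs_le.mpr ⟨by linarith [hA0 t x], hA1 t x⟩
  have hPu : ∫ _x : Ω, (1 : ℝ) ∂P ≤ 1 + η := by
    rw [integral_const, smul_eq_mul, mul_one]
    exact hP1
  -- the average over the window
  have hfub : ∫ s in (0 : ℝ)..W, ∫ x, χ (aw k W t0 x) * (1 - k (t0 + s) x) ∂P ≤ W * (3 / 100 * (1 + η) + (c + η)) := by
    have hm1 : Measurable (Function.uncurry fun (s : ℝ) (x : Ω) => χ (aw k W t0 x) * (1 - k (t0 + s) x)) :=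
      ((hχA t0).comp measurable_snd).mul (measurable_const.sub (hkt t0))
    rw [← PDD_swap hm1 1 W (fun s x => hφb t0 (t0 + s) x) hW.le]
    have h1 : ∀ x, ∫ s in (0 : ℝ)..W, χ (aw k W t0 x) * (1 - k (t0 + s) x) = W * (χ (aw k W t0 x) * (1 - aw k W t0 x)) := by
      intro x
      rw [intervalIntegral.integral_const_mul, intervalIntegral.integral_sub intervalIntegrable_const (hkI t0 x),
        intervalIntegral.integral_const, smul_eq_mul, mul_one, sub_zero]
      have h2 : ∫ s in (0 : ℝ)..W, k (t0 + s) x = W * aw k W t0 x := by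
        unfold aw
        field_simp
      rw [h2]
      ring
    simp only [h1]
    rw [integral_const_mul]
    refine mul_le_mul_of_nonneg_left ?_ hW.le
    have h3 : ∫ x, χ (aw k W t0 x) * (1 - aw k W t0 x) ∂P ≤ ∫ x, (3 / 100 * (1 : ℝ) + ζ (aw k W t0 x)) ∂P := by
      refine integral_mono ?_ (((integrable_const _).const_mul _).add (hζI t0)) fun x => ?_
      · refine PDD_int ((hχA t0).mul (measurable_const.sub (hAm t0))) 1 fun x => ?_
        have e1 := hχ (aw k W t0 x)
        have e2 := hA0 t0 x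
        have e3 := hA1 t0 x
        rw [abs_le]
        constructor
        · nlinarith [mul_nonneg e1.1 (sub_nonneg.mpr e3)]
        · nlinarith [mul_nonneg e1.1 e2]
      · have := (hD3 t0 x).1
        show χ (aw k W t0 x) * (1 - aw k W t0 x) ≤ 3 / 100 * (1 : ℝ) + ζ (aw k W t0 x)
        linarith
    rw [integral_add ((integrable_const _).const_mul _) (hζI t0), integral_const_mul] at h3
    linarith
  have hm1 : Measurable (Function.uncurry fun (s : ℝ) (x : Ω) => χ (aw k W t0 x) * (1 - k (t0 + s) x)) :=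
    ((hχA t0).comp measurable_snd).mul (measurable_const.sub (hkt t0))
  obtain ⟨u0, hu0, hu1, hu2⟩ := PDD_ex hm1 1 W _ (fun s x => hφb t0 (t0 + s) x) hW hfub
  -- (a)
  have ha : ∀ t s, p ≤ t → t + W ≤ q → p + W ≤ s → s + W ≤ q →
      ∫ x, χ (aw k W t x) * (1 - k s x) ∂P ≤ 3 / 100 * (1 + η) + (2 * N + 1) * (c + η) + η := by
    intro t s h1 h2 h3 h4
    have h5 := (abs_le.mp (hS2 (s - u0) t0 u0 (by linarith) ht0 (by linarith) ht0' (by linarith) (by linarith)
      (by linarith) (by linarith))).2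
    have h6 := hD2 t (s - u0) h1 h2 (by linarith) (by linarith)
    have h7 : s - u0 + u0 = s := by ring
    rw [h7] at h5
    have h8 : ∫ x, χ (aw k W t x) * (1 - k s x) ∂P ≤
        ∫ x, (χ (aw k W (s - u0) x) * (1 - k s x) + |χ (aw k W t x) - χ (aw k W (s - u0) x)|) ∂P := by
      refine integral_mono (hφI t s) ((hφI _ s).add ((hχI t).sub (hχI _)).abs) fun x => ?_
      show χ (aw k W t x) * (1 - k s x) ≤ χ (aw k W (s - u0) x) * (1 - k s x) + |χ (aw k W t x) - χ (aw k W (s - u0) x)|
      have e1 := le_abs_self (χ (aw k W t x) - χ (aw k W (s - u0) x))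
      have e2 := hk01 s x
      have e3 := abs_nonneg (χ (aw k W t x) - χ (aw k W (s - u0) x))
      nlinarith [mul_nonneg (sub_nonneg.mpr e1) (sub_nonneg.mpr e2.2), mul_nonneg e3 e2.1]
    have habs : Integrable (fun x => |χ (aw k W t x) - χ (aw k W (s - u0) x)|) P := ((hχI t).sub (hχI _)).abs
    have h9 : ∫ x, (χ (aw k W (s - u0) x) * (1 - k s x) + |χ (aw k W t x) - χ (aw k W (s - u0) x)|) ∂P =
        ∫ x, χ (aw k W (s - u0) x) * (1 - k s x) ∂P + ∫ x, |χ (aw k W t x) - χ (aw k W (s - u0) x)| ∂P :=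
      integral_add (hφI _ s) habs
    rw [h9] at h8
    linarith
  refine ⟨?_, ?_⟩
  · intro t s h1 h2 h3 h4
    rcases le_or_gt (p + W) s with h5 | h5
    · rcases le_or_gt (s + W) q with h6 | h6
      · have := ha t s (by linarith) (by linarith) h5 h6
        linarith
      · have h7 := (abs_le.mp (hS2 t (t - W) (s - t) (by linarith) (by linarith) (by linarith) (by linarith)
          (by linarith) (by linarith) (by linarith) (by linarith))).2
        have h8 : t + (s - t) = s := by ring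
        have h9 : t - W + (s - t) = s - W := by ring
        rw [h8, h9] at h7
        have := ha (t - W) (s - W) (by linarith) (by linarith) (by linarith) (by linarith)
        linarith
    · have h7 := (abs_le.mp (hS2 t (t + W) (s - t) (by linarith) (by linarith) (by linarith) (by linarith)
        (by linarith) (by linarith) (by linarith) (by linarith))).2
      have h8 : t + (s - t) = s := by ring
      have h9 : t + W + (s - t) = s + W := by ring
      rw [h8, h9] at h7
      have := ha (t + W) (s + W) (by linarith) (by linarith) (by linarith) (by linarith)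
      linarith
  · intro t h1 h2
    have h3 : ∫ x, aw k W t x ∂P ≤ ∫ x, (1 / 20 * (1 : ℝ) + χ (aw k W t x) ^ 2 + ζ (aw k W t x)) ∂P := by
      refine integral_mono (hAI t) ((((integrable_const _).const_mul _).add ?_).add (hζI t)) fun x => ?_
      · refine PDD_int ((hχA t).pow_const 2) 1 fun x => ?_
        have e1 := hχ (aw k W t x)
        rw [abs_le]
        constructor
        · nlinarith [sq_nonneg (χ (aw k W t x))]
        · nlinarith
      · have := (hD3 t x).2
        show aw k W t x ≤ 1 / 20 * (1 : ℝ) + χ (aw k W t x) ^ 2 + ζ (aw k W t x)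
        linarith
    have hsq : Integrable (fun x => χ (aw k W t x) ^ 2) P := by
      refine PDD_int ((hχA t).pow_const 2) 1 fun x => ?_
      have e1 := hχ (aw k W t x)
      rw [abs_le]
      constructor
      · nlinarith [sq_nonneg (χ (aw k W t x))]
      · nlinarith
    have hc1 : Integrable (fun _ : Ω => 1 / 20 * (1 : ℝ)) P := (integrable_const _).const_mul _
    have hc2 : Integrable (fun x => 1 / 20 * (1 : ℝ) + χ (aw k W t x) ^ 2) P := hc1.add hsq
    have h6 : ∫ x, (1 / 20 * (1 : ℝ) + χ (aw k W t x) ^ 2 + ζ (aw k W t x)) ∂P =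
        ∫ x, (1 / 20 * (1 : ℝ) + χ (aw k W t x) ^ 2) ∂P + ∫ x, ζ (aw k W t x) ∂P := integral_add hc2 (hζI t)
    have h7 : ∫ x, (1 / 20 * (1 : ℝ) + χ (aw k W t x) ^ 2) ∂P = ∫ _x : Ω, 1 / 20 * (1 : ℝ) ∂P + ∫ x, χ (aw k W t x) ^ 2 ∂P :=
      integral_add hc1 hsq
    rw [h6, h7, integral_const_mul] at h3
    have h4 := hz t h1 h2
    have h5 : m - η ≤ ∫ x, aw k W t x ∂P := by
      have e1 : ∫ x, aw k W t x ∂P = (∫ s in (0 : ℝ)..W, ∫ x, k (t + s) x ∂P) / W := by
        unfold aw
        rw [integral_div, PDD_swap (hkt t) 1 W (fun s x => hkb _ _) hW.le]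
      rw [e1, le_div_iff₀ hW]
      have hkpI : IntervalIntegrable (fun s => ∫ x, k (t + s) x ∂P) volume 0 W := by
        rw [intervalIntegrable_iff_integrableOn_Ioc_of_le hW.le]
        exact (PDD_prod (P := P) (hkt t) 1 W fun s x => hkb _ _).integral_prod_left
      have e2 : ∫ s in (0 : ℝ)..W, (m - η) ≤ ∫ s in (0 : ℝ)..W, ∫ x, k (t + s) x ∂P := by
        refine intervalIntegral.integral_mono_on hW.le intervalIntegrable_const hkpI fun s hs => ?_
        have e3 := (abs_le.mp (hS3 (t + s) t1 (by linarith [hs.1]) ht1 (by linarith [hs.2]) ht1')).1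
        linarith
      rw [intervalIntegral.integral_const, smul_eq_mul, sub_zero] at e2
      linarith
    linarith

end Pool.Agent.TP
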