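import Pool.Agent.helper46.T1.SpecP
import Pool.Agent.helper62.RS.GLC

set_option autoImplicit false

open scoped MatrixGroups ContDiff Topology UpperHalfPlane ComplexConjugate
open UpperHalfPlane MeasureTheory Filter Set

namespace Pool.Agent.TP

open Pool.Agent.RS Pool.Agent.MS

theorem PSF_scale {F : ℝ → ℝ} {a : ℝ} (c : ℝ) (h : HasDerivAt F a 0) : HasDerivAt (fun x => F (c * x)) (c * a) 0 := by
  have h1 : HasDerivAt (fun x : ℝ => c * x) (c * 1) 0 := (hasDerivAt_id (0 : ℝ)).const_mul c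
  have h2 : HasDerivAt F a (c * 0) := by rw [mul_zero]; exact h
  have h3 := HasDerivAt.comp (0 : ℝ) h2 h1
  have h4 : a * (c * 1) = c * a := by ring
  rw [h4] at h3
  exact h3

theorem PSF_inv_right {Γ : Subgroup SL(2, ℝ)} {u : SL(2, ℝ) → ℝ} (h : InvG Γ u) (k : SL(2, ℝ)) (c : ℝ) :
    InvG Γ (fun g => c * u (g * k)) := by
  refine ⟨continuous_const.mul (h.1.comp (continuous_mul_const k)), fun γ g => ?_⟩
  show c * u ((γ : SL(2, ℝ)) * g * k) = c * u (g * k)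
  rw [mul_assoc, h.2]

theorem PSF_inv_right1 {Γ : Subgroup SL(2, ℝ)} {u : SL(2, ℝ) → ℝ} (h : InvG Γ u) (k : SL(2, ℝ)) :
    InvG Γ (fun g => u (g * k)) := by
  refine ⟨h.1.comp (continuous_mul_const k), fun γ g => ?_⟩
  show u ((γ : SL(2, ℝ)) * g * k) = u (g * k)
  rw [mul_assoc, h.2]

theorem PSF_inv_mul {Γ : Subgroup SL(2, ℝ)} {u v : SL(2, ℝ) → ℝ} (h : InvG Γ u) (h' : InvG Γ v) :
    InvG Γ (fun g => u g * v g) := by
  refine ⟨h.1.mul h'.1, fun γ g => ?_⟩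
  show u ((γ : SL(2, ℝ)) * g) * v ((γ : SL(2, ℝ)) * g) = u g * v g
  rw [h.2, h'.2]

theorem PSF_inv_add {Γ : Subgroup SL(2, ℝ)} {u v : SL(2, ℝ) → ℝ} (h : InvG Γ u) (h' : InvG Γ v) :
    InvG Γ (fun g => u g + v g) := by
  refine ⟨h.1.add h'.1, fun γ g => ?_⟩
  show u ((γ : SL(2, ℝ)) * g) + v ((γ : SL(2, ℝ)) * g) = u g + v g
  rw [h.2, h'.2]

theorem PSF_inv_neg {Γ : Subgroup SL(2, ℝ)} {u : SL(2, ℝ) → ℝ} (h : InvG Γ u) : InvG Γ (fun g => -u g) := by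
  refine ⟨h.1.neg, fun γ g => ?_⟩
  show -u ((γ : SL(2, ℝ)) * g) = -u g
  rw [h.2]

theorem PSF_inv_comp {Γ : Subgroup SL(2, ℝ)} {u : SL(2, ℝ) → ℝ} (h : InvG Γ u) {f : ℝ → ℝ} (hf : Continuous f) :
    InvG Γ (fun g => f (u g)) := by
  refine ⟨hf.comp h.1, fun γ g => ?_⟩
  show f (u ((γ : SL(2, ℝ)) * g)) = f (u g)
  rw [h.2]

theorem PSF_one {f : ℝ → SL(2, ℝ)} (h : ∀ s t, f (s + t) = f s * f t) : f 0 = 1 := by
  have h1 := h 0 0
  rw [add_zero] at h1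
  exact (mul_eq_left.mp h1.symm)

theorem PSF_mulD {Ψ Φ : SL(2, ℝ) → ℝ} {g : SL(2, ℝ)} {f : ℝ → SL(2, ℝ)} {a b : ℝ} (h0 : f 0 = 1)
    (h1 : HasDerivAt (fun t => Ψ (g * f t)) a 0) (h2 : HasDerivAt (fun t => Φ (g * f t)) b 0) :
    HasDerivAt (fun t => Ψ (g * f t) * Φ (g * f t)) (a * Φ g + Ψ g * b) 0 := by
  have h3 := h1.mul h2
  rw [h0, mul_one] at h3
  exact h3

theorem PSF_compD {Ψ : SL(2, ℝ) → ℝ} {g : SL(2, ℝ)} {f : ℝ → SL(2, ℝ)} {a : ℝ} {F F' : ℝ → ℝ} (h0 : f 0 = 1)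
    (hF : ∀ x, HasDerivAt F (F' x) x) (h1 : HasDerivAt (fun t => Ψ (g * f t)) a 0) :
    HasDerivAt (fun t => F (Ψ (g * f t))) (F' (Ψ g) * a) 0 := by
  have h3 := HasDerivAt.comp (0 : ℝ) (hF (Ψ (g * f 0))) h1
  rw [h0, mul_one] at h3
  exact h3

theorem PSF_proof : PSF_stmt := by
  intro Γ Ψ Ψa Ψn Ψl h
  obtain ⟨-, -, -, -, -, -, -, -, -, -, haM, hnM, hlM, -, -, -, -, hna, hla, -⟩ := RS.GLC
  have ha0 : aM 0 = 1 := PSF_one haM
  have hn0 : nM 0 = 1 := PSF_one hnM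
  have hl0 : lM 0 = 1 := PSF_one hlM
  refine ⟨?_, ?_, ?_, ?_⟩
  · intro t
    refine ⟨PSF_inv_right1 h.i0 _, PSF_inv_right1 h.ia _, PSF_inv_right h.i1 _ _, PSF_inv_right h.il _ _, ?_, ?_, ?_⟩
    · intro g
      have e : (fun x => Ψ (g * aM x * aM t)) = fun x => Ψ (g * aM t * aM x) := by
        funext x
        rw [mul_assoc, ← haM, add_comm, haM, ← mul_assoc]
      show HasDerivAt (fun x => Ψ (g * aM x * aM t)) _ 0
      rw [e]
      exact h.da _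
    · intro g
      have e : (fun x => Ψ (g * nM x * aM t)) = fun x => (fun y => Ψ (g * aM t * nM y)) (Real.exp (-t) * x) := by
        funext x
        show Ψ (g * nM x * aM t) = Ψ (g * aM t * nM (Real.exp (-t) * x))
        rw [mul_assoc, hna, ← mul_assoc]
      show HasDerivAt (fun x => Ψ (g * nM x * aM t)) _ 0
      rw [e]
      exact PSF_scale _ (h.dn _)
    · intro g
      have e : (fun x => Ψ (g * lM x * aM t)) = fun x => (fun y => Ψ (g * aM t * lM y)) (Real.exp t * x) := by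
        funext x
        show Ψ (g * lM x * aM t) = Ψ (g * aM t * lM (Real.exp t * x))
        rw [mul_assoc, hla, ← mul_assoc]
      show HasDerivAt (fun x => Ψ (g * lM x * aM t)) _ 0
      rw [e]
      exact PSF_scale _ (h.dl _)
  · intro Φ Φa Φn Φl h'
    exact ⟨PSF_inv_mul h.i0 h'.i0, PSF_inv_add (PSF_inv_mul h.ia h'.i0) (PSF_inv_mul h.i0 h'.ia),
      PSF_inv_add (PSF_inv_mul h.i1 h'.i0) (PSF_inv_mul h.i0 h'.i1),
      PSF_inv_add (PSF_inv_mul h.il h'.i0) (PSF_inv_mul h.i0 h'.il),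
      fun g => PSF_mulD ha0 (h.da g) (h'.da g), fun g => PSF_mulD hn0 (h.dn g) (h'.dn g),
      fun g => PSF_mulD hl0 (h.dl g) (h'.dl g)⟩
  · exact ⟨PSF_inv_comp h.i0 (f := fun x => 1 - x) (continuous_const.sub continuous_id), PSF_inv_neg h.ia,
      PSF_inv_neg h.i1, PSF_inv_neg h.il, fun g => (h.da g).const_sub 1, fun g => (h.dn g).const_sub 1,
      fun g => (h.dl g).const_sub 1⟩
  · intro f f' hf' hf
    have hfc : Continuous f := continuous_iff_continuousAt.mpr fun x => (hf x).continuousAt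
    exact ⟨PSF_inv_comp h.i0 hfc, PSF_inv_mul (PSF_inv_comp h.i0 hf') h.ia, PSF_inv_mul (PSF_inv_comp h.i0 hf') h.i1,
      PSF_inv_mul (PSF_inv_comp h.i0 hf') h.il, fun g => PSF_compD ha0 hf (h.da g), fun g => PSF_compD hn0 hf (h.dn g),
      fun g => PSF_compD hl0 hf (h.dl g)⟩

end Pool.Agent.TP
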