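import Pool.Agent.helper65.T1.SpecN

set_option autoImplicit false

open MeasureTheory

namespace Pool.Agent.T1

theorem NPC_one (x y : ℝ) : 1 + ((⌊x⌋ : ℝ) - ⌊y⌋) ^ 2 ≤ 5 * (1 + (x - y) ^ 2) := by
  have h1 := Int.floor_le x
  have h2 := Int.lt_floor_add_one x
  have h3 := Int.floor_le y
  have h4 := Int.lt_floor_add_one y
  set m : ℝ := (⌊x⌋ : ℝ) - ⌊y⌋ with hm
  have hd1 : m - (x - y) ≤ 1 := by rw [hm]; linarith
  have hd2 : -1 ≤ m - (x - y) := by rw [hm]; linarith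
  have h5 : (m - (x - y)) ^ 2 ≤ 1 := by nlinarith
  nlinarith [sq_nonneg (m - 2 * (x - y))]

theorem NPC_cell (T x y : ℝ) (hT : 0 < T) (h : ⌊T * x⌋ = ⌊T * y⌋) : |x - y| ≤ 1 / T := by
  have h1 := Int.floor_le (T * x)
  have h2 := Int.lt_floor_add_one (T * x)
  have h3 := Int.floor_le (T * y)
  have h4 := Int.lt_floor_add_one (T * y)
  have h5 : (⌊T * x⌋ : ℝ) = ⌊T * y⌋ := by exact_mod_cast congrArg (fun z : ℤ => (z : ℝ)) h
  have h6 : |T * x - T * y| ≤ 1 := by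
    rw [abs_le]
    constructor <;> linarith
  rw [← mul_sub, abs_mul, abs_of_pos hT] at h6
  rw [le_div_iff₀ hT]
  linarith

theorem NPC_proof (hNPW : NPW_stmt) (hNPD : NPD_stmt) : NPC_stmt := by
  refine ⟨25 ^ 3, by norm_num, ?_⟩
  intro ι s a b T H hT hH
  refine (hNPW ι s a b T H hT hH).trans ?_
  have h1 : ∑ i ∈ s, ∑ j ∈ s, 1 / ((1 + (T * (a i - a j)) ^ 2) * (1 + (H * (b i - b j)) ^ 2)) ≤
      25 * ∑ i ∈ s, ∑ j ∈ s, 1 / ((1 + ((⌊T * a i⌋ : ℝ) - ⌊T * a j⌋) ^ 2) * (1 + ((⌊H * b i⌋ : ℝ) - ⌊H * b j⌋) ^ 2)) := by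
    rw [Finset.mul_sum]
    refine Finset.sum_le_sum fun i _ => ?_
    rw [Finset.mul_sum]
    refine Finset.sum_le_sum fun j _ => ?_
    have e1 := NPC_one (T * a i) (T * a j)
    have e2 := NPC_one (H * b i) (H * b j)
    rw [← mul_sub] at e1 e2
    have p1 : 0 < 1 + ((⌊T * a i⌋ : ℝ) - ⌊T * a j⌋) ^ 2 := by positivity
    have p2 : 0 < 1 + ((⌊H * b i⌋ : ℝ) - ⌊H * b j⌋) ^ 2 := by positivity
    have p3 : 0 < 1 + (T * (a i - a j)) ^ 2 := by positivity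
    have p4 : 0 < 1 + (H * (b i - b j)) ^ 2 := by positivity
    rw [mul_one_div, div_le_div_iff₀ (by positivity) (by positivity)]
    have := mul_le_mul e1 e2 p2.le (by positivity)
    linarith
  have h2 := hNPD ι s (fun i => ⌊T * a i⌋) (fun i => ⌊H * b i⌋)
  classical
  have h3 : (({x ∈ s ×ˢ s | ⌊T * a x.1⌋ = ⌊T * a x.2⌋ ∧ ⌊H * b x.1⌋ = ⌊H * b x.2⌋} : Finset (ι × ι)).card : ℝ) ≤
      (({x ∈ s ×ˢ s | |a x.1 - a x.2| ≤ 1 / T ∧ |b x.1 - b x.2| ≤ 1 / H} : Finset (ι × ι)).card : ℝ) := by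
    refine Nat.cast_le.mpr (Finset.card_le_card ?_)
    intro x hx
    rw [Finset.mem_filter] at hx ⊢
    exact ⟨hx.1, NPC_cell T _ _ hT hx.2.1, NPC_cell H _ _ hH hx.2.2⟩
  have h4 : ∑ i ∈ s, ∑ j ∈ s, 1 / ((1 + (T * (a i - a j)) ^ 2) * (1 + (H * (b i - b j)) ^ 2)) ≤
      25 * (25 * (({x ∈ s ×ˢ s | |a x.1 - a x.2| ≤ 1 / T ∧ |b x.1 - b x.2| ≤ 1 / H} : Finset (ι × ι)).card : ℝ)) := by
    refine h1.trans (mul_le_mul_of_nonneg_left ?_ (by norm_num))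
    refine h2.trans (mul_le_mul_of_nonneg_left ?_ (by norm_num))
    refine le_trans (le_of_eq ?_) h3
    congr
  calc 25 * T * H * ∑ i ∈ s, ∑ j ∈ s, 1 / ((1 + (T * (a i - a j)) ^ 2) * (1 + (H * (b i - b j)) ^ 2))
      ≤ 25 * T * H * (25 * (25 * (({x ∈ s ×ˢ s | |a x.1 - a x.2| ≤ 1 / T ∧ |b x.1 - b x.2| ≤ 1 / H} : Finset (ι × ι)).card : ℝ))) :=
        mul_le_mul_of_nonneg_left h4 (by positivity)
    _ = 25 ^ 3 * T * H * (({x ∈ s ×ˢ s | |a x.1 - a x.2| ≤ 1 / T ∧ |b x.1 - b x.2| ≤ 1 / H} : Finset (ι × ι)).card : ℝ) := by ring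
    _ = _ := by congr

end Pool.Agent.T1
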